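import Pool.Agent.Helper22_DEN3.Stmt

/-!
# EXP: the combinatorial inequality
-/

open scoped BigOperators

namespace Pool.Agent.DEN.H633

section
variable {r : ℕ} {C : Matrix (Fin r) (Fin r) ℤ}

theorem ipal (i : Fin r) (l : Fin r → ℤ) : ip C (al i) l = ∑ j, C i j * l j := by
  unfold ip
  rw [Finset.sum_eq_single i]
  · simp [al]
  · intro j _ hj
    apply Finset.sum_eq_zero
    intro k _
    simp [al, Pi.single_eq_of_ne hj]
  · simp

theorem ipexp (x l : Fin r → ℤ) : ip C x l = ∑ i, x i * ip C (al i) l := by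
  simp only [ipal, Finset.mul_sum]
  unfold ip
  refine Finset.sum_congr rfl fun i _ => Finset.sum_congr rfl fun j _ => by ring

theorem ipexp' (x y : Fin r → ℤ) : ip C x y = ∑ j, ip C x (al j) * y j := by
  unfold ip
  rw [Finset.sum_comm]
  refine Finset.sum_congr rfl fun j _ => ?_
  rw [Finset.sum_mul]
  refine Finset.sum_congr rfl fun i _ => ?_
  simp [al, Pi.single_apply]

theorem al_nonneg (k j : Fin r) : 0 ≤ (al k : Fin r → ℤ) j := by
  unfold al
  by_cases h : j = k
  · subst h; simp
  · simp [Pi.single_eq_of_ne h]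

end

theorem exp (hRF : RootFinStmt) (hRS : RootSignStmt) (hRD : RootDescStmt) : ExpStmt := by
  classical
  intro r C hC l hl m e he hpos
  obtain ⟨S1, S2, S3, S4⟩ := hRS r C hC
  obtain ⟨D1, D2, D3⟩ := hRD r C hC
  have hfin := hRF r C hC
  have : Fintype (Rt C) := Fintype.ofFinite _
  have hdep : dep C l = ∑ β : Rt C, (ip C β.1 l).toNat := by
    unfold dep
    exact finsum_eq_sum_of_fintype _
  have heb : eb C l m = ∑ β : Rt C, (ip C β.1 l - m).toNat := by
    unfold eb
    rw [finsum_eq_sum_of_fintype,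
      ← Finset.sum_subtype (Finset.univ.filter (fun β : Rt C => 0 < ip C β.1 l)) (by simp)
        (fun β : Rt C => (ip C β.1 l - m).toNat)]
    apply Finset.sum_filter_of_ne
    intro β _ h
    omega
  have hsplit : ∀ a : ℤ, a.toNat = (a - m).toNat + min a.toNat m := by
    intro a
    omega
  have hdep2 : dep C l = eb C l m + ∑ β : Rt C, min (ip C β.1 l).toNat m := by
    rw [hdep, heb, ← Finset.sum_add_distrib]
    exact Finset.sum_congr rfl fun β _ => hsplit _
  rw [hdep2]
  apply Nat.add_le_add_left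
  -- the root `θ`
  have hne : ({β : Rt C | (m : ℤ) < ip C β.1 l}).Nonempty := by
    by_contra h
    rw [Set.not_nonempty_iff_eq_empty] at h
    rw [heb] at hpos
    have : ∑ β : Rt C, (ip C β.1 l - m).toNat = 0 := by
      apply Finset.sum_eq_zero
      intro β _
      have h1 : β ∉ {β : Rt C | (m : ℤ) < ip C β.1 l} := by rw [h]; exact Set.notMem_empty _
      have h2 : ¬ (m : ℤ) < ip C β.1 l := h1
      omega
    omega
  obtain ⟨θ, hθ, hmax⟩ := Set.exists_max_image {β : Rt C | (m : ℤ) < ip C β.1 l}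
    (fun β => ht β) (Set.toFinite _) hne
  have hθm : (m : ℤ) < ip C θ.1 l := hθ
  have hdom : IsDom C θ.1 := by
    intro k
    by_contra hneg
    have hneg : ip C (al k) θ.1 < 0 := not_le.mp hneg
    have hb := (hC.ip_bound (hC.sr k) θ).1
    rw [SimplyLaced.sr_val] at hb
    have hk := hl k
    have h1 : ip C (al k) θ.1 = -1 ∨ ip C (al k) θ.1 = -2 := by omega
    rcases h1 with h1 | h1
    · have h2 : ip C ((hC.sr k).1 + θ.1) ((hC.sr k).1 + θ.1) = 2 := hC.ip_add_self h1
      have h3 : (m : ℤ) < ip C (⟨(hC.sr k).1 + θ.1, h2⟩ : Rt C).1 l := by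
        show (m : ℤ) < ip C ((al k : Fin r → ℤ) + θ.1) l
        rw [ip_add_left]
        omega
      have h4 := hmax ⟨(hC.sr k).1 + θ.1, h2⟩ h3
      have h5 : ht (⟨(hC.sr k).1 + θ.1, h2⟩ : Rt C) = 1 + ht θ := by
        show ∑ i, ((al k : Fin r → ℤ) i + θ.1 i) = 1 + ∑ i, θ.1 i
        rw [Finset.sum_add_distrib]
        congr 1
        simp [al]
      simp only [h5] at h4
      omega
    · have h2 := hC.ip_eq_neg_two (β := hC.sr k) (γ := θ) h1
      rw [h2, Rt.neg_val, SimplyLaced.sr_val, ip_neg_left] at hθm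
      omega
  have heθ := he θ hdom
  have hposip : ∀ ν : Rt C, ν.Pos → 0 ≤ ip C ν.1 θ.1 := by
    intro ν hν
    rw [ipexp]
    exact Finset.sum_nonneg fun k _ => mul_nonneg (hν k) (hdom k)
  have hposl : ∀ ν : Rt C, ν.Pos → 0 ≤ ip C ν.1 l := by
    intro ν hν
    rw [ipexp]
    exact Finset.sum_nonneg fun k _ => mul_nonneg (hν k) (hl k)
  have hθpos : θ.Pos := by
    rcases S1 θ with h | h
    · exact h
    · have h1 := hposip θ.neg h
      rw [Rt.neg_val, ip_neg_left, θ.2] at h1
      omega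
  have hpos1 : ∀ β : Rt C, ip C β.1 θ.1 = 1 → β.Pos := by
    intro β h1
    rcases S1 β with h | h
    · exact h
    · have h2 := hposip β.neg h
      rw [Rt.neg_val, ip_neg_left, h1] at h2
      omega
  set A := Finset.univ.filter (fun β : Rt C => ip C β.1 θ.1 = 1) with hA
  have hcard : (A.card : ℤ) + 2 = 2 * ht θ := by
    have hD : ∀ i, ∑ β ∈ Finset.univ.filter (fun β : Rt C => β.Pos), ip C β.1 (al i) = 2 := by
      intro i
      have h := D3 i
      rw [finsum_eq_sum_of_fintype,
        ← Finset.sum_subtype (Finset.univ.filter (fun β : Rt C => β.Pos)) (by simp)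
          (fun β : Rt C => ip C β.1 (al i))] at h
      exact h
    have h1 : ∑ β ∈ Finset.univ.filter (fun β : Rt C => β.Pos), ip C β.1 θ.1 = 2 * ht θ := by
      calc ∑ β ∈ Finset.univ.filter (fun β : Rt C => β.Pos), ip C β.1 θ.1
          = ∑ β ∈ Finset.univ.filter (fun β : Rt C => β.Pos),
              ∑ j, ip C β.1 (al j) * θ.1 j := Finset.sum_congr rfl fun β _ => ipexp' _ _
        _ = ∑ j, (∑ β ∈ Finset.univ.filter (fun β : Rt C => β.Pos), ip C β.1 (al j)) * θ.1 j := by
            rw [Finset.sum_comm]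
            exact Finset.sum_congr rfl fun j _ => (Finset.sum_mul _ _ _).symm
        _ = ∑ j, 2 * θ.1 j := Finset.sum_congr rfl fun j _ => by rw [hD j]
        _ = 2 * ht θ := by
            rw [← Finset.mul_sum]
            rfl
    have h2 : ∀ β ∈ Finset.univ.filter (fun β : Rt C => β.Pos), ip C β.1 θ.1 =
        (if ip C β.1 θ.1 = 1 then 1 else 0) + (if β = θ then 2 else 0) := by
      intro β hβ
      have h3 := hposip β (Finset.mem_filter.mp hβ).2
      have h4 := (hC.ip_bound β θ).2
      by_cases h5 : β = θ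
      · subst h5
        rw [β.2]
        simp
      · rw [if_neg h5]
        have h6 : ip C β.1 θ.1 ≠ 2 := fun h => h5 (hC.ip_eq_two h)
        by_cases h7 : ip C β.1 θ.1 = 1
        · rw [if_pos h7, h7]
          rfl
        · rw [if_neg h7]
          omega
    rw [Finset.sum_congr rfl h2, Finset.sum_add_distrib] at h1
    have h3 : ∑ β ∈ Finset.univ.filter (fun β : Rt C => β.Pos), (if β = θ then (2 : ℤ) else 0)
        = 2 := by
      rw [Finset.sum_ite_eq']
      rw [if_pos (Finset.mem_filter.mpr ⟨Finset.mem_univ _, hθpos⟩)]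
    have h4 : ∑ β ∈ Finset.univ.filter (fun β : Rt C => β.Pos),
        (if ip C β.1 θ.1 = 1 then (1 : ℤ) else 0) = A.card := by
      rw [← Finset.sum_filter, Finset.sum_const, nsmul_eq_mul, mul_one]
      congr 2
      ext β
      simp only [hA, Finset.mem_filter, Finset.mem_univ, true_and]
      exact ⟨fun h => h.2, fun h => ⟨hpos1 β h, h⟩⟩
    rw [h3, h4] at h1
    exact h1
  -- the involution
  have hroot : ∀ β : Rt C, ip C β.1 θ.1 = 1 → ip C (θ.1 - β.1) (θ.1 - β.1) = 2 := by
    intro β h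
    apply hC.ip_sub_self
    rw [hC.ip_comm]
    exact h
  have hinv : ∑ β ∈ A, min (ip C β.1 l).toNat m =
      ∑ β ∈ A, min (ip C θ.1 l - ip C β.1 l).toNat m := by
    refine Finset.sum_bij (fun β hβ => (⟨θ.1 - β.1, hroot β (Finset.mem_filter.mp hβ).2⟩ : Rt C))
      ?_ ?_ ?_ ?_
    · intro β hβ
      rw [hA, Finset.mem_filter]
      refine ⟨Finset.mem_univ _, ?_⟩
      show ip C (θ.1 - β.1) θ.1 = 1
      rw [ip_sub_left, θ.2, (Finset.mem_filter.mp hβ).2]
      norm_num
    · intro β hβ β' hβ' h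
      have h1 := congrArg Subtype.val h
      simp only at h1
      apply Subtype.ext
      exact sub_right_inj.mp h1
    · intro β hβ
      refine ⟨⟨θ.1 - β.1, hroot β (Finset.mem_filter.mp hβ).2⟩, ?_, ?_⟩
      · rw [hA, Finset.mem_filter]
        refine ⟨Finset.mem_univ _, ?_⟩
        show ip C (θ.1 - β.1) θ.1 = 1
        rw [ip_sub_left, θ.2, (Finset.mem_filter.mp hβ).2]
        norm_num
      · apply Subtype.ext
        show θ.1 - (θ.1 - β.1) = β.1
        abel
    · intro β hβ
      show min (ip C β.1 l).toNat m = min (ip C θ.1 l - ip C (θ.1 - β.1) l).toNat m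
      rw [ip_sub_left]
      congr 2
      ring
  have hsum2 : m * A.card ≤ 2 * ∑ β ∈ A, min (ip C β.1 l).toNat m := by
    rw [two_mul]
    nth_rewrite 2 [hinv]
    rw [← Finset.sum_add_distrib, mul_comm, ← smul_eq_mul, ← Finset.sum_const]
    apply Finset.sum_le_sum
    intro β hβ
    have h1 := (Finset.mem_filter.mp hβ).2
    have h2 := hposl β (hpos1 β h1)
    have h3 : 0 ≤ ip C (θ.1 - β.1) l := by
      apply hposl ⟨θ.1 - β.1, hroot β h1⟩
      apply hpos1
      show ip C (θ.1 - β.1) θ.1 = 1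
      rw [ip_sub_left, θ.2, h1]
      norm_num
    rw [ip_sub_left] at h3
    omega
  have hθA : θ ∉ A := by
    rw [hA, Finset.mem_filter, θ.2]
    norm_num
  have htot : m + ∑ β ∈ A, min (ip C β.1 l).toNat m ≤ ∑ β : Rt C, min (ip C β.1 l).toNat m := by
    have h1 : ∑ β ∈ insert θ A, min (ip C β.1 l).toNat m ≤
        ∑ β : Rt C, min (ip C β.1 l).toNat m :=
      Finset.sum_le_sum_of_subset (Finset.subset_univ _)
    rw [Finset.sum_insert hθA] at h1
    have h2 : min (ip C θ.1 l).toNat m = m := by omega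
    rw [h2] at h1
    exact h1
  have hA2 : 2 * e ≤ A.card + 2 := by omega
  have hfinal : m * (2 * e) ≤ m * (A.card + 2) := Nat.mul_le_mul_left m hA2
  have h5 : 2 * (e * m) = m * (2 * e) := by ring
  have h6 : m * (A.card + 2) = m * A.card + 2 * m := by ring
  omega

end Pool.Agent.DEN.H633
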