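import Pool.Agent.Helper22_DEN3.Stmt

/-!
# TRC: the trace of an operator on the space of the equivariant functions
-/

open scoped BigOperators

namespace Pool.Agent.DEN.H633

theorem trc : TrcStmt := by
  classical
  intro G X _ _ H ψ hmul hnorm hfin
  let good : X → Prop := fun x => ∃ f : VV (X := X) H ψ, f.1 x ≠ 0
  have hV : ∀ (v : VV (X := X) H ψ) (γ : G), γ ∈ H → ∀ x, v.1 (γ • x) = ψ γ * v.1 x :=
    fun v γ hγ x => v.2 γ hγ x
  have hex : ∀ x, ∃ v : VV (X := X) H ψ, good x →
      ((∀ h ∈ H, v.1 (h • x) = ψ h) ∧ ∀ y, (¬ ∃ h ∈ H, y = h • x) → v.1 y = 0) := by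
    intro x
    by_cases hx : good x
    · obtain ⟨f, hf⟩ := hx
      have hst : ∀ h1 ∈ H, ∀ h2 ∈ H, h1 • x = h2 • x → ψ h1 = ψ h2 := by
        intro h1 m1 h2 m2 e
        have e1 := hV f h1 m1 x
        rw [e, hV f h2 m2 x] at e1
        exact (mul_right_cancel₀ hf e1).symm
      let w : X → ℂ := fun y => if h : ∃ h ∈ H, y = h • x then ψ h.choose else 0
      have hw : ∀ h ∈ H, w (h • x) = ψ h := by
        intro h hh
        have he : ∃ h' ∈ H, h • x = h' • x := ⟨h, hh, rfl⟩
        show (if h' : ∃ h' ∈ H, h • x = h' • x then ψ h'.choose else 0) = ψ h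
        rw [dif_pos he]
        exact hst _ he.choose_spec.1 _ hh he.choose_spec.2.symm
      have hw0 : ∀ y, (¬ ∃ h ∈ H, y = h • x) → w y = 0 := by
        intro y hy
        show (if h : ∃ h ∈ H, y = h • x then ψ h.choose else 0) = 0
        rw [dif_neg hy]
      refine ⟨⟨w, ?_⟩, fun _ => ⟨hw, hw0⟩⟩
      intro γ hγ y
      by_cases hy : ∃ h ∈ H, y = h • x
      · obtain ⟨k, hk, rfl⟩ := hy
        rw [hw k hk, smul_smul, hw _ (mul_mem hγ hk), hmul γ hγ k hk]
      · have hy' : ¬ ∃ h ∈ H, γ • y = h • x := by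
          rintro ⟨k, hk, e⟩
          apply hy
          refine ⟨γ⁻¹ * k, mul_mem (inv_mem hγ) hk, ?_⟩
          rw [mul_smul, ← e, inv_smul_smul]
        rw [hw0 _ hy, hw0 _ hy', mul_zero]
    · exact ⟨0, fun h => absurd h hx⟩
  choose d hd using hex
  have hψ1 : ψ 1 = 1 := by
    have h1 := hmul 1 (one_mem H) 1 (one_mem H)
    rw [mul_one] at h1
    have h2 : ψ 1 ≠ 0 := by
      intro h
      have := hnorm 1 (one_mem H)
      rw [h, norm_zero] at this
      exact one_ne_zero this.symm
    exact (mul_right_cancel₀ h2 (by rw [one_mul]; exact h1)).symm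
  have hd1 : ∀ x, good x → (d x).1 x = 1 := by
    intro x hx
    have := (hd x hx).1 1 (one_mem H)
    rw [one_smul, hψ1] at this
    exact this
  -- orbits
  have horb : ∀ a b : X,
      (Quotient.mk'' a : MulAction.orbitRel.Quotient H X) = Quotient.mk'' b ↔
        ∃ h ∈ H, a = h • b := by
    intro a b
    rw [Quotient.eq'', MulAction.orbitRel_apply]
    constructor
    · rintro ⟨h, hh⟩
      exact ⟨h.1, h.2, hh.symm⟩
    · rintro ⟨h, hh, e⟩
      exact ⟨⟨h, hh⟩, e.symm⟩
  let Og : Type := {o : MulAction.orbitRel.Quotient H X // good o.out}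
  let pt' : Og → X := fun o => o.1.out
  have hpt : ∀ o o' : Og, (∃ h ∈ H, pt' o = h • pt' o') → o = o' := by
    intro o o' h
    apply Subtype.ext
    have h1 := (horb _ _).mpr h
    have h2 : (Quotient.mk'' (pt' o) : MulAction.orbitRel.Quotient H X) = o.1 :=
      Quotient.out_eq' o.1
    have h3 : (Quotient.mk'' (pt' o') : MulAction.orbitRel.Quotient H X) = o'.1 :=
      Quotient.out_eq' o'.1
    rw [h2, h3] at h1
    exact h1
  have hdo : ∀ o o' : Og, (d (pt' o)).1 (pt' o') = if o = o' then 1 else 0 := by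
    intro o o'
    by_cases h : o = o'
    · subst h
      rw [if_pos rfl]
      exact hd1 _ o.2
    · rw [if_neg h]
      apply (hd _ o.2).2
      intro h'
      exact h (hpt o' o h').symm
  let evx : X → (VV (X := X) H ψ →ₗ[ℂ] ℂ) := fun x =>
    { toFun := fun v => v.1 x
      map_add' := fun u v => rfl
      map_smul' := fun c v => rfl }
  have hevx : ∀ x (v : VV (X := X) H ψ), evx x v = v.1 x := fun x v => rfl
  have hli : LinearIndependent ℂ (fun o : Og => d (pt' o)) := by
    rw [linearIndependent_iff']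
    intro s g hg o ho
    have h1 := congrArg (evx (pt' o)) hg
    rw [map_sum, map_zero, Finset.sum_eq_single o] at h1
    · rw [map_smul, hevx, hdo, if_pos rfl, smul_eq_mul, mul_one] at h1
      exact h1
    · intro o' _ hne
      rw [map_smul, hevx, hdo, if_neg hne, smul_zero]
    · intro h
      exact absurd ho h
  have hOg : Finite Og := hli.finite
  have : Fintype Og := Fintype.ofFinite _
  -- the basis
  have hzero : ∀ v : VV (X := X) H ψ, (∀ o : Og, v.1 (pt' o) = 0) → v = 0 := by
    intro v hv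
    apply Subtype.ext
    funext y
    show v.1 y = 0
    have h1 : (Quotient.mk'' y : MulAction.orbitRel.Quotient H X) =
        Quotient.mk'' (Quotient.mk'' y : MulAction.orbitRel.Quotient H X).out :=
      (Quotient.out_eq' _).symm
    rw [horb] at h1
    obtain ⟨h, hh, e⟩ := h1
    rw [e, hV v h hh]
    by_cases hg : good (Quotient.mk'' y : MulAction.orbitRel.Quotient H X).out
    · have := hv ⟨_, hg⟩
      have h2 : v.1 (Quotient.mk'' y : MulAction.orbitRel.Quotient H X).out = 0 := this
      rw [h2, mul_zero]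
    · have h2 : v.1 (Quotient.mk'' y : MulAction.orbitRel.Quotient H X).out = 0 := by
        by_contra h3
        exact hg ⟨v, h3⟩
      rw [h2, mul_zero]
  have hexp : ∀ v : VV (X := X) H ψ, v = ∑ o : Og, v.1 (pt' o) • d (pt' o) := by
    intro v
    rw [← sub_eq_zero]
    apply hzero
    intro o
    rw [← hevx, map_sub, map_sum, hevx, Finset.sum_eq_single o]
    · rw [map_smul, hevx, hdo, if_pos rfl, smul_eq_mul, mul_one, sub_self]
    · intro o' _ hne
      rw [map_smul, hevx, hdo, if_neg hne, smul_zero]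
    · intro h
      exact absurd (Finset.mem_univ o) h
  have hspan : ⊤ ≤ Submodule.span ℂ (Set.range (fun o : Og => d (pt' o))) := by
    intro v _
    rw [hexp v]
    exact Submodule.sum_mem _ fun o _ => Submodule.smul_mem _ _
      (Submodule.subset_span ⟨o, rfl⟩)
  let b : Module.Basis Og ℂ (VV (X := X) H ψ) := Module.Basis.mk hli hspan
  have hb : ∀ o, b o = d (pt' o) := fun o => Module.Basis.mk_apply hli hspan o
  have hrepr : ∀ (v : VV (X := X) H ψ) (o : Og), b.repr v o = v.1 (pt' o) := by
    intro v o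
    have h1 := b.sum_repr v
    have h2 := congrArg (evx (pt' o)) h1
    rw [map_sum, Finset.sum_eq_single o] at h2
    · rw [map_smul, hb, hevx, hdo, if_pos rfl, smul_eq_mul, mul_one, hevx] at h2
      exact h2
    · intro o' _ hne
      rw [map_smul, hb, hevx, hdo, if_neg hne, smul_zero]
    · intro h
      exact absurd (Finset.mem_univ o) h
  have hinj : Function.Injective pt' := by
    intro o o' h
    apply hpt o o'
    exact ⟨1, one_mem H, by rw [one_smul]; exact h⟩
  refine ⟨Finset.univ.image pt', d, ?_, ?_, ?_, ?_⟩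
  · intro x hx y hy h
    obtain ⟨o, _, rfl⟩ := Finset.mem_image.mp hx
    obtain ⟨o', _, rfl⟩ := Finset.mem_image.mp hy
    obtain ⟨h, hh, e⟩ := h
    have := hpt o' o ⟨h, hh, e.symm⟩
    rw [this]
  · intro x hx
    obtain ⟨o, _, rfl⟩ := Finset.mem_image.mp hx
    exact ⟨hd1 _ o.2, (hd _ o.2).2⟩
  · rw [Finset.card_image_of_injective _ hinj, Finset.card_univ]
    exact (Module.finrank_eq_card_basis b).symm
  · intro A
    rw [LinearMap.trace_eq_matrix_trace ℂ b A, Matrix.trace,
      Finset.sum_image (fun o _ o' _ h => hinj h)]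
    refine Finset.sum_congr rfl fun o _ => ?_
    rw [Matrix.diag_apply, LinearMap.toMatrix_apply, hrepr, hb]

end Pool.Agent.DEN.H633
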